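import Pool.Agent.helper22.FI3.SpecCQ
import Pool.Agent.helper12.FI.PureF

/-!
# Row JT0 of project fi3 (MP_baa4d7_al)
-/

set_option autoImplicit false

namespace Pool.Agent.FI3

open Pool.Agent.helper58.DC Pool.Agent.DI Pool.Agent.GR Pool.Agent.OB Pool.Agent.DR Pool.Agent.FI

theorem JT0_count (hIF : IF_stmt) {G : Type} [Group G] [Finite G] (p : ℕ)
    (M : Ideal (integralClosure ℤ ℂ)) (χ : G → ℂ) (N : Subgroup G) :
    (Function.support fun d : ℤ => ((BlkD p M χ N d).ncard : ℤ)).Finite ∧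
    ∑ᶠ d : ℤ, ((BlkD p M χ N d).ncard : ℤ) = ((Blk M χ N).ncard : ℤ) := by
  have hS : (Blk M χ N).Finite := (hIF G N).1.subset fun ψ h => h.1
  have hex : ∀ ψ ∈ Blk M χ N, ∃ d, Defect p N ψ d := by
    intro ψ hψ
    obtain ⟨⟨n, hn, h1⟩, -⟩ := (hIF G N).2 ψ hψ.1
    exact ⟨_, n, h1, rfl⟩
  obtain ⟨h1, h2⟩ := PF_count p N (Blk M χ N) hS hex
  have he : ∀ d : ℤ, Nat.card {ψ : G → ℂ // ψ ∈ Blk M χ N ∧ Defect p N ψ d} =
      (BlkD p M χ N d).ncard := fun d => Nat.card_coe_set_eq (BlkD p M χ N d)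
  simp only [he] at h1 h2
  have h3 : (Function.support fun d : ℤ => ((BlkD p M χ N d).ncard : ℤ)).Finite := by
    refine h1.subset ?_
    intro d hd h
    apply hd
    have h' : (BlkD p M χ N d).ncard = 0 := h
    show ((BlkD p M χ N d).ncard : ℤ) = 0
    rw [h', Nat.cast_zero]
  refine ⟨h3, ?_⟩
  rw [← h2]
  exact ((Nat.castAddMonoidHom ℤ).map_finsum h1).symm

theorem JT0 (hFT0 : FT0_stmt) (hIF : IF_stmt) : JT0_stmt := by
  intro p M hM G _ _ hop χ hχ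
  classical
  haveI : Fact p.Prime := ⟨hM.pr⟩
  have hfin : {C : Finset (Subgroup G) | NCh p ⊤ ⊥ C}.Finite := Set.toFinite _
  have hsum : ∀ F : Finset (Subgroup G) → ℤ,
      ∑ᶠ C ∈ {C : Finset (Subgroup G) | NCh p ⊤ ⊥ C}, F C = ∑ C ∈ hfin.toFinset, F C :=
    fun F => finsum_mem_eq_finite_toFinset_sum _ hfin
  have h0 : ∀ d : ℤ, (Nat.card G : ℤ) * altSum (trivE G) p M χ d ⊤ =
      ∑ C ∈ hfin.toFinset, (-1) ^ (C.card + 1) *
        ((Nat.card (nrm C) : ℤ) * (BlkD p M χ (nrm C) d).ncard) := by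
    intro d
    rw [hFT0 G p M hop χ hχ d, hsum]
  rw [mul_finsum, finsum_congr h0, hsum, finsum_sum_comm]
  · refine Finset.sum_congr rfl fun C _ => ?_
    obtain ⟨h5, h6⟩ := JT0_count hIF p M χ (nrm C)
    rw [← h6, mul_finsum, mul_finsum]
  · intro C _
    refine (JT0_count hIF p M χ (nrm C)).1.subset ?_
    intro d hd h
    apply hd
    show (-1) ^ (C.card + 1) * ((Nat.card (nrm C) : ℤ) * ((BlkD p M χ (nrm C) d).ncard : ℤ)) = 0
    have h' : ((BlkD p M χ (nrm C) d).ncard : ℤ) = 0 := h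
    rw [h', mul_zero, mul_zero]

end Pool.Agent.FI3
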