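import Pool.Agent.helper70.FI3.SpecN3

/-!
# Row QMXS of project fi3 (MP_baa4d7_al), block N3: norms
-/

set_option autoImplicit false

namespace Pool.Agent.FI3

open Pool.Agent.helper58.DC Pool.Agent.DI Pool.Agent.GR Pool.Agent.OB Pool.Agent.DR Pool.Agent.FI

theorem QMXS_fs {α : Type} [Fintype α] (S : α → Prop) [DecidablePred S] (f : α → ℂ) :
    ∑ᶠ x ∈ {x | S x}, f x = ∑ x, if S x then f x else 0 := by
  rw [finsum_eq_sum_of_fintype]
  refine Finset.sum_congr rfl fun x _ => ?_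
  by_cases h : S x
  · have h' : x ∈ {x | S x} := h
    rw [if_pos h, finsum_eq_if, if_pos h']
  · have h' : x ∉ {x | S x} := h
    rw [if_neg h, finsum_eq_if, if_neg h']

theorem QMXS_card {G : Type} [Group G] [Fintype G] (H : Subgroup G) [DecidablePred (· ∈ H)] (c : ℂ) :
    ∑ x : G, (if x ∈ H then c else 0) = (Nat.card H : ℂ) * c := by
  rw [← Finset.sum_filter, Finset.sum_const, nsmul_eq_mul]
  congr 2
  rw [Nat.card_eq_fintype_card]
  exact (Fintype.card_subtype (fun x => x ∈ H)).symm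

theorem QMXS (hQMY : QMY3_stmt) (hPPT : PPT_stmt) (hB2 : B2_stmt) : QMXS_stmt := by
  intro p M hM G _ _ D x θ χ hlo P hP χ' hχ
  classical
  have := Fintype.ofFinite G
  have hDL : D ≤ cz P := Q1_D_le hlo.rt hP
  have hχL : χ' ∈ IrrOn (cz P) := hχ.1
  have hcL : (Nat.card (cz P) : ℂ) ≠ 0 := by exact_mod_cast Nat.card_pos.ne'
  have hpD : ∀ y ∈ D, PEl p y := by
    intro y hy
    obtain ⟨k, hk⟩ := hlo.rt.dfa.pgrp ⟨y, hy⟩
    exact ⟨k, congrArg Subtype.val hk⟩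
  -- the contribution of `y`
  set A : G → ℂ := fun y => ∑ᶠ v ∈ {v : G | v ∈ Cz (cz P) y ∧ PReg p v}, χ' (y * v) * χ' (y * v)⁻¹ with hA
  set N : G → ℂ := fun u => Su p M (cz P) θ χ' u / (wt M D (cz P) θ u : ℂ) with hN
  have s1 : (Nat.card (cz P) : ℂ) = ∑ y, if y ∈ cz P ∧ PEl p y then A y else 0 := by
    have h1 := ((hB2 G (cz P)).2 χ' hχL).2.2.2.2 χ' hχL
    rw [if_pos rfl] at h1
    have h2 := hPPT p hM.pr G (cz P) (fun g => χ' g * χ' g⁻¹)
    rw [← QMXS_fs (fun y => y ∈ cz P ∧ PEl p y) A, ← h1]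
    refine Eq.trans ?_ h2
    refine finsum_congr fun g => ?_
    by_cases hg : g ∈ cz P
    · have hg' : g ∈ ((cz P : Subgroup G) : Set G) := hg
      rw [finsum_eq_if, if_pos hg']
    · have hg' : g ∉ ((cz P : Subgroup G) : Set G) := hg
      rw [finsum_eq_if, if_neg hg', ((hB2 G (cz P)).2 χ' hχL).2.2.2.1 g hg, zero_mul]
  have s3 : ∀ y, (if y ∈ cz P ∧ PEl p y then A y else 0) =
      ∑ q : G × G, if (y ∈ cz P ∧ PEl p y) ∧ q.1 ∈ cz P ∧ q.2 ∈ D ∧ q.1 * q.2 * q.1⁻¹ = y then N q.2 else 0 := by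
    intro y
    by_cases h : y ∈ cz P ∧ PEl p y
    · rw [if_pos h]
      refine Eq.trans (hQMY p M hM G D x θ χ hlo P hP y h.1 h.2 χ' hχ) ?_
      rw [QMXS_fs (fun q : G × G => q.1 ∈ cz P ∧ q.2 ∈ D ∧ q.1 * q.2 * q.1⁻¹ = y)]
      refine Finset.sum_congr rfl fun q _ => ?_
      by_cases hq : q.1 ∈ cz P ∧ q.2 ∈ D ∧ q.1 * q.2 * q.1⁻¹ = y
      · rw [if_pos hq, if_pos ⟨h, hq⟩]
      · rw [if_neg hq, if_neg fun h' => hq h'.2]
    · rw [if_neg h]
      exact (Finset.sum_eq_zero fun q _ => if_neg fun h' => h h'.1).symm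
  have s4 : ∀ q : G × G, (∑ y, if (y ∈ cz P ∧ PEl p y) ∧ q.1 ∈ cz P ∧ q.2 ∈ D ∧ q.1 * q.2 * q.1⁻¹ = y
      then N q.2 else 0) =
      (if q.1 ∈ cz P then (1 : ℂ) else 0) * (if q.2 ∈ D then N q.2 else 0) := by
    intro q
    by_cases h1 : q.1 ∈ cz P
    · by_cases h2 : q.2 ∈ D
      · rw [if_pos h1, if_pos h2, one_mul, Finset.sum_eq_single (q.1 * q.2 * q.1⁻¹)]
        · rw [if_pos]
          refine ⟨⟨(cz P).mul_mem ((cz P).mul_mem h1 (hDL h2)) ((cz P).inv_mem h1), ?_⟩, h1, h2, rfl⟩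
          obtain ⟨k, hk⟩ := hpD q.2 h2
          refine ⟨k, ?_⟩
          rw [conj_pow, hk]
          group
        · intro y _ hy
          exact if_neg fun h => hy h.2.2.2.symm
        · intro h
          exact absurd (Finset.mem_univ _) h
      · rw [if_neg h2, mul_zero]
        exact Finset.sum_eq_zero fun y _ => if_neg fun h => h2 h.2.2.1
    · rw [if_neg h1, zero_mul]
      exact Finset.sum_eq_zero fun y _ => if_neg fun h => h1 h.2.1
  have s5 : (∑ y, if y ∈ cz P ∧ PEl p y then A y else 0) =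
      (Nat.card (cz P) : ℂ) * ∑ᶠ u ∈ {u : G | u ∈ D}, N u := by
    rw [Finset.sum_congr rfl fun y _ => s3 y, Finset.sum_comm, Finset.sum_congr rfl fun q _ => s4 q,
      Fintype.sum_prod_type, QMXS_fs (fun u => u ∈ D) N]
    have h6 : ∀ l : G, (∑ u, (if l ∈ cz P then (1 : ℂ) else 0) * (if u ∈ D then N u else 0)) =
        if l ∈ cz P then ∑ u, (if u ∈ D then N u else 0) else 0 := by
      intro l
      rw [← Finset.mul_sum]
      split_ifs
      · rw [one_mul]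
      · rw [zero_mul]
    refine Eq.trans (Finset.sum_congr rfl fun l _ => h6 l) ?_
    exact QMXS_card (cz P) _
  have s7 : (Nat.card (cz P) : ℂ) * 1 = (Nat.card (cz P) : ℂ) * ∑ᶠ u ∈ {u : G | u ∈ D}, N u := by
    rw [mul_one]
    exact s1.trans s5
  exact mul_left_cancel₀ hcL s7

end Pool.Agent.FI3
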